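import Mathlib

/-!
# A contour around a finite set of cells of the square grid

`R` is a finite set of cells of `ℤ × ℤ` that contains the origin but not the cell below it.  Walking
along the boundary of `R`, with `R` on the left, one finds a closed circuit; in the steps up and
the steps to the left the cell on the right hand side is the right, respectively the upper,
neighbour of a cell of `R`.  At least a quarter of the steps give different such cells.
-/

namespace Q291.OP

/-- The four unit vectors: `0` east, `1` north, `2` west, `3` south. -/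
def vec : Fin 4 → ℤ × ℤ := ![(1, 0), (0, 1), (-1, 0), (0, -1)]

/-- Offset between a cell and the first corner of its boundary edge in a given direction. -/
def off : Fin 4 → ℤ × ℤ := ![(0, 0), (1, 0), (1, 1), (0, 1)]

/-- position after `k` steps of the walk `w`. -/
def pos (w : ℕ → Fin 4) (k : ℕ) : ℤ × ℤ := ∑ j ∈ Finset.range k, vec (w j)

/-- the cells at the right of the steps up and to the left of the walk `w`, up to time `n`. -/
def cells (n : ℕ) (w : ℕ → Fin 4) : Finset (ℤ × ℤ) :=
  ((Finset.range n).filter (fun k => w k = 1)).image (fun k => pos w k) ∪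
  ((Finset.range n).filter (fun k => w k = 2)).image (fun k => pos w k + (-1, 0))

open Classical in
/-- one step along the boundary of `R`, keeping `R` on the left hand side. -/
noncomputable def next (R : Set (ℤ × ℤ)) (s : (ℤ × ℤ) × Fin 4) : (ℤ × ℤ) × Fin 4 :=
  if s.1 + vec (s.2 - 1) + vec s.2 ∈ R then (s.1 + vec (s.2 - 1) + vec s.2, s.2 - 1)
  else if s.1 + vec s.2 ∈ R then (s.1 + vec s.2, s.2)
  else (s.1, s.2 + 1)

open Classical in
/-- the inverse of `next`. -/
noncomputable def prev (R : Set (ℤ × ℤ)) (s : (ℤ × ℤ) × Fin 4) : (ℤ × ℤ) × Fin 4 :=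
  if s.1 + vec (s.2 - 1) - vec s.2 ∈ R then (s.1 + vec (s.2 - 1) - vec s.2, s.2 + 1)
  else if s.1 - vec s.2 ∈ R then (s.1 - vec s.2, s.2)
  else (s.1, s.2 - 1)

/-- the boundary edges of `R`. -/
def Valid (R : Set (ℤ × ℤ)) (s : (ℤ × ℤ) × Fin 4) : Prop := s.1 ∈ R ∧ s.1 + vec (s.2 - 1) ∉ R

lemma vec_sub_two (d : Fin 4) : vec (d - 1 - 1) = - vec d := by
  revert d; decide

lemma vec_add_one (d : Fin 4) : vec (d + 1) = - vec (d - 1) := by
  revert d; decide

lemma off_next (d : Fin 4) : off (d - 1) + vec (d - 1) = off d := by
  fin_cases d <;> simp [vec, off]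

lemma off_next' (d : Fin 4) : off (d + 1) = off d + vec d := by
  fin_cases d <;> simp [vec, off]

lemma valid_next {R : Set (ℤ × ℤ)} {s : (ℤ × ℤ) × Fin 4} (h : Valid R s) : Valid R (next R s) := by
  obtain ⟨l, d⟩ := s
  obtain ⟨h1, h2⟩ := h
  simp only at h1 h2
  unfold next
  split_ifs with c1 c2
  · refine ⟨c1, ?_⟩
    simp only
    rw [vec_sub_two]
    have e : l + vec (d - 1) + vec d + -vec d = l + vec (d - 1) := by abel
    rw [e]
    exact h2
  · refine ⟨c2, ?_⟩
    simp only at c1 ⊢
    have e : l + vec d + vec (d - 1) = l + vec (d - 1) + vec d := by abel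
    rw [e]
    exact c1
  · refine ⟨h1, ?_⟩
    simp only [add_sub_cancel_right] at c2 ⊢
    exact c2

lemma prev_next {R : Set (ℤ × ℤ)} {s : (ℤ × ℤ) × Fin 4} (h : Valid R s) :
    prev R (next R s) = s := by
  obtain ⟨l, d⟩ := s
  obtain ⟨h1, h2⟩ := h
  simp only at h1 h2
  unfold next
  simp only
  by_cases c1 : l + vec (d - 1) + vec d ∈ R
  · rw [if_pos c1]
    unfold prev
    simp only
    have e : l + vec (d - 1) + vec d + vec (d - 1 - 1) - vec (d - 1) = l := by
      rw [vec_sub_two]; abel
    rw [e, if_pos h1]
    simp
  · rw [if_neg c1]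
    by_cases c2 : l + vec d ∈ R
    · rw [if_pos c2]
      unfold prev
      simp only
      have e : l + vec d + vec (d - 1) - vec d = l + vec (d - 1) := by abel
      have e' : l + vec d - vec d = l := by abel
      rw [e, if_neg h2, e', if_pos h1]
    · rw [if_neg c2]
      unfold prev
      simp only
      have e0 : d + 1 - 1 = d := add_sub_cancel_right d 1
      have e : l + vec d - vec (d + 1) = l + vec (d - 1) + vec d := by
        rw [vec_add_one]; abel
      have e' : l - vec (d + 1) = l + vec (d - 1) := by
        rw [vec_add_one]; abel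
      rw [e0, e, if_neg c1, e', if_neg h2]

/-- first corner of a boundary edge. -/
def corner (s : (ℤ × ℤ) × Fin 4) : ℤ × ℤ := s.1 + off s.2

lemma corner_next (R : Set (ℤ × ℤ)) (s : (ℤ × ℤ) × Fin 4) :
    corner (next R s) = corner s + vec s.2 := by
  obtain ⟨l, d⟩ := s
  unfold next corner
  split_ifs with c1 c2
  · simp only
    rw [← off_next d]
    abel
  · simp only
    abel
  · simp only
    rw [off_next']
    abel

/-- The contour lemma. -/
theorem contour {R bad : Set (ℤ × ℤ)} (hR : R.Finite) (h0 : (0, 0) ∈ R) (h0' : (0, -1) ∉ R)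
    (h1 : ∀ r ∈ R, r + (1, 0) ∈ R ∨ r + (1, 0) ∈ bad)
    (h2 : ∀ r ∈ R, r + (0, 1) ∈ R ∨ r + (0, 1) ∈ bad) :
    ∃ n : ℕ, 1 ≤ n ∧ ∃ w : ℕ → Fin 4, (∀ z ∈ cells n w, z ∈ bad) ∧ n ≤ 4 * (cells n w).card := by
  classical
  let X := {s : (ℤ × ℤ) × Fin 4 // Valid R s}
  have hXfin : Finite X := by
    have : {s : (ℤ × ℤ) × Fin 4 | Valid R s} ⊆ R ×ˢ Set.univ := by
      intro s hs
      exact ⟨hs.1, trivial⟩
    exact ((hR.prod Set.finite_univ).subset this).to_subtype
  let nx : X → X := fun s => ⟨next R s.1, valid_next s.2⟩
  have hinj : Function.Injective nx := by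
    intro s t hst
    have := congrArg Subtype.val hst
    simp only [nx] at this
    apply Subtype.ext
    rw [← prev_next s.2, ← prev_next t.2, this]
  let s0 : X := ⟨((0, 0), 0), h0, by simpa [vec] using h0'⟩
  have hper : s0 ∈ Function.periodicPts nx := hinj.mem_periodicPts s0
  set n := Function.minimalPeriod nx s0 with hn
  have hnpos : 0 < n := Function.minimalPeriod_pos_of_mem_periodicPts hper
  have hclosed : nx^[n] s0 = s0 := Function.iterate_minimalPeriod
  have hdist : Set.InjOn (fun k => nx^[k] s0) (Set.Iio n) :=
    Function.iterate_injOn_Iio_minimalPeriod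
  let st : ℕ → (ℤ × ℤ) × Fin 4 := fun k => (nx^[k] s0).1
  let w : ℕ → Fin 4 := fun k => (st k).2
  have hst_succ : ∀ k, st (k + 1) = next R (st k) := by
    intro k
    simp only [st, Function.iterate_succ_apply']
    rfl
  have hvalid : ∀ k, Valid R (st k) := fun k => (nx^[k] s0).2
  have hcor : ∀ k, corner (st k) = pos w k := by
    intro k
    induction k with
    | zero => simp [st, s0, corner, pos, off]
    | succ k ih =>
      rw [hst_succ, corner_next, ih, pos, pos, Finset.sum_range_succ]
  have hstn : st n = st 0 := by
    simp only [st, hclosed, Function.iterate_zero, id]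
  have hposn : pos w n = 0 := by
    rw [← hcor n, hstn, hcor 0]
    simp [pos]
  have hstinj : ∀ i < n, ∀ j < n, st i = st j → i = j := by
    intro i hi j hj h
    exact hdist hi hj (Subtype.ext h)
  -- counting
  let a : Fin 4 → ℕ := fun d => ((Finset.range n).filter (fun k => w k = d)).card
  have hsum : a 0 + a 1 + a 2 + a 3 = n := by
    have h := Finset.card_eq_sum_card_fiberwise (f := w) (s := Finset.range n)
      (t := (Finset.univ : Finset (Fin 4))) (fun _ _ => Finset.mem_univ _)
    rw [Finset.card_range, Fin.sum_univ_four] at h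
    exact h.symm
  have hvecsum : pos w n = ∑ d : Fin 4, (a d : ℤ) • vec d := by
    unfold pos
    rw [← Finset.sum_fiberwise_of_maps_to (s := Finset.range n) (t := (Finset.univ : Finset (Fin 4)))
      (g := w) (fun _ _ => Finset.mem_univ _)]
    apply Finset.sum_congr rfl
    intro d _
    rw [Finset.sum_congr rfl (g := fun _ => vec d)]
    · simp [a]
    · intro k hk
      rw [(Finset.mem_filter.mp hk).2]
  have hx : (a 0 : ℤ) = a 2 := by
    have := congrArg Prod.fst (hvecsum.symm.trans hposn)
    simp [Fin.sum_univ_four, vec] at this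
    omega
  have hy : (a 1 : ℤ) = a 3 := by
    have := congrArg Prod.snd (hvecsum.symm.trans hposn)
    simp [Fin.sum_univ_four, vec] at this
    omega
  have hl : ∀ k, (st k).1 = pos w k - off (w k) := by
    intro k
    rw [← hcor k]
    simp [corner, w]
  refine ⟨n, hnpos, w, ?_, ?_⟩
  · intro z hz
    unfold cells at hz
    rw [Finset.mem_union, Finset.mem_image, Finset.mem_image] at hz
    rcases hz with ⟨k, hk, rfl⟩ | ⟨k, hk, rfl⟩
    · have hk2 := (Finset.mem_filter.mp hk).2
      have hv := hvalid k
      have e := hl k
      rw [hk2] at e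
      have e2 : (st k).2 = 1 := hk2
      unfold Valid at hv
      rw [e2] at hv
      have e3 : (st k).1 + (1, 0) = pos w k := by rw [e]; simp [off]
      have e4 : vec (1 - 1) = (1, 0) := by simp [vec]
      rw [e4, e3] at hv
      rcases h1 _ hv.1 with h | h
      · rw [e3] at h; exact absurd h hv.2
      · rwa [e3] at h
    · have hk2 := (Finset.mem_filter.mp hk).2
      have hv := hvalid k
      have e := hl k
      rw [hk2] at e
      have e2 : (st k).2 = 2 := hk2
      unfold Valid at hv
      rw [e2] at hv
      have e3 : (st k).1 + (0, 1) = pos w k + (-1, 0) := by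
        rw [e]; ext <;> simp [off]; ring
      have e4 : vec (2 - 1) = (0, 1) := by
        have : (2 : Fin 4) - 1 = 1 := by decide
        rw [this]; simp [vec]
      rw [e4, e3] at hv
      rcases h2 _ hv.1 with h | h
      · rw [e3] at h; exact absurd h hv.2
      · rwa [e3] at h
  · have hc1 : a 1 ≤ (cells n w).card := by
      have h1' : (((Finset.range n).filter (fun k => w k = 1)).image (fun k => pos w k)).card
          = a 1 := by
        apply Finset.card_image_of_injOn
        intro i hi j hj hij
        simp only [Finset.coe_filter, Set.mem_ofPred_eq, Finset.mem_range] at hi hj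
        apply hstinj i hi.1 j hj.1
        refine Prod.ext ?_ ?_
        · rw [hl, hl, hi.2, hj.2]
          simp only at hij
          rw [hij]
        · exact hi.2.trans hj.2.symm
      rw [← h1']
      exact Finset.card_le_card Finset.subset_union_left
    have hc2 : a 2 ≤ (cells n w).card := by
      have h1' : (((Finset.range n).filter (fun k => w k = 2)).image
          (fun k => pos w k + (-1, 0))).card = a 2 := by
        apply Finset.card_image_of_injOn
        intro i hi j hj hij
        simp only [Finset.coe_filter, Set.mem_ofPred_eq, Finset.mem_range] at hi hj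
        apply hstinj i hi.1 j hj.1
        refine Prod.ext ?_ ?_
        · rw [hl, hl, hi.2, hj.2]
          simp only at hij
          rw [add_right_cancel hij]
        · exact hi.2.trans hj.2.symm
      rw [← h1']
      exact Finset.card_le_card Finset.subset_union_right
    omega

end Q291.OP
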