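import Mathlib
import Pool.Agent.Q291.OP.Contour

/-!
# Union bound over the contours
-/

namespace Q291.OP

open MeasureTheory ENNReal

lemma bern_true (p : unitInterval) :
    ProbabilityTheory.bernoulliMeasure true false p {true} = ENNReal.ofReal p := by
  rw [ProbabilityTheory.bernoulliMeasure_apply p (measurableSet_singleton true)]
  simp only [Set.mem_singleton_iff, if_true]
  rw [if_neg (by decide), ENNReal.ofReal, Real.toNNReal_of_nonneg p.2.1]
  rfl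

lemma all_true {V : Type} (p : unitInterval) (T : Finset V) :
    Measure.infinitePi (fun _ : V => ProbabilityTheory.bernoulliMeasure true false p)
      {c | ∀ x ∈ T, c x = true} = ENNReal.ofReal p ^ T.card := by
  have h : {c : V → Bool | ∀ x ∈ T, c x = true} = (T : Set V).pi (fun _ => {true}) := by
    ext c
    simp [Set.mem_pi]
  rw [h, Measure.infinitePi_pi _ (fun _ _ => measurableSet_singleton _)]
  simp only [bern_true, Finset.prod_const]

lemma cells_congr {n : ℕ} {w w' : ℕ → Fin 4} (h : ∀ k < n, w k = w' k) :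
    cells n w = cells n w' := by
  have hp : ∀ k ≤ n, pos w k = pos w' k := by
    intro k hk
    unfold pos
    apply Finset.sum_congr rfl
    intro j hj
    rw [h j (lt_of_lt_of_le (Finset.mem_range.mp hj) hk)]
  unfold cells
  congr 1
  · ext z
    simp only [Finset.mem_image, Finset.mem_filter, Finset.mem_range]
    constructor
    · rintro ⟨k, ⟨hk, hw⟩, rfl⟩
      exact ⟨k, ⟨hk, (h k hk) ▸ hw⟩, (hp k hk.le).symm⟩
    · rintro ⟨k, ⟨hk, hw⟩, rfl⟩
      exact ⟨k, ⟨hk, (h k hk).trans hw⟩, hp k hk.le⟩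
  · ext z
    simp only [Finset.mem_image, Finset.mem_filter, Finset.mem_range]
    constructor
    · rintro ⟨k, ⟨hk, hw⟩, rfl⟩
      exact ⟨k, ⟨hk, (h k hk) ▸ hw⟩, by rw [hp k hk.le]⟩
    · rintro ⟨k, ⟨hk, hw⟩, rfl⟩
      exact ⟨k, ⟨hk, (h k hk).trans hw⟩, by rw [hp k hk.le]⟩

/-- Union bound: if `μ (all cells of S are bad) ≤ q ^ |S|` with `q ≤ 16⁻⁴`, then with probability
at least `2/3` no contour has only bad cells. -/
theorem union_bound {Ω : Type*} [MeasurableSpace Ω] (μ : Measure Ω) (bad : ℤ × ℤ → Set Ω)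
    (q : ℝ≥0∞) (hq : q ≤ (16 : ℝ≥0∞)⁻¹ ^ 4)
    (hbad : ∀ S : Finset (ℤ × ℤ), μ {c | ∀ z ∈ S, c ∈ bad z} ≤ q ^ S.card) :
    μ {c | ∃ n : ℕ, 1 ≤ n ∧ ∃ w : ℕ → Fin 4, (∀ z ∈ cells n w, c ∈ bad z) ∧
      n ≤ 4 * (cells n w).card} ≤ 3⁻¹ := by
  classical
  let ex : ∀ n : ℕ, (Fin n → Fin 4) → ℕ → Fin 4 := fun n w k => if h : k < n then w ⟨k, h⟩ else 0
  have hsub : {c | ∃ n : ℕ, 1 ≤ n ∧ ∃ w : ℕ → Fin 4, (∀ z ∈ cells n w, c ∈ bad z) ∧
      n ≤ 4 * (cells n w).card} ⊆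
      ⋃ m : ℕ, ⋃ w : Fin (m + 1) → Fin 4,
        {c | (∀ z ∈ cells (m + 1) (ex (m + 1) w), c ∈ bad z) ∧
          m + 1 ≤ 4 * (cells (m + 1) (ex (m + 1) w)).card} := by
    rintro c ⟨n, hn, w, h1, h2⟩
    obtain ⟨m, rfl⟩ : ∃ m, n = m + 1 := ⟨n - 1, by omega⟩
    have e : cells (m + 1) w = cells (m + 1) (ex (m + 1) (fun k => w k)) := by
      apply cells_congr
      intro k hk
      simp [ex, hk]
    rw [Set.mem_iUnion]
    refine ⟨m, ?_⟩
    rw [Set.mem_iUnion]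
    refine ⟨fun k => w k, ?_⟩
    rw [e] at h1 h2
    exact ⟨h1, h2⟩
  have hone : ∀ (n : ℕ) (w : ℕ → Fin 4),
      μ {c | (∀ z ∈ cells n w, c ∈ bad z) ∧ n ≤ 4 * (cells n w).card} ≤ (16 : ℝ≥0∞)⁻¹ ^ n := by
    intro n w
    by_cases h : n ≤ 4 * (cells n w).card
    · calc μ {c | (∀ z ∈ cells n w, c ∈ bad z) ∧ n ≤ 4 * (cells n w).card}
          ≤ μ {c | ∀ z ∈ cells n w, c ∈ bad z} := measure_mono (fun c hc => hc.1)
        _ ≤ q ^ (cells n w).card := hbad _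
        _ ≤ ((16 : ℝ≥0∞)⁻¹ ^ 4) ^ (cells n w).card := by gcongr
        _ = (16 : ℝ≥0∞)⁻¹ ^ (4 * (cells n w).card) := by rw [pow_mul]
        _ ≤ (16 : ℝ≥0∞)⁻¹ ^ n := by
            apply pow_le_pow_right_of_le_one' _ h
            rw [ENNReal.inv_le_one]
            norm_num
    · have : {c | (∀ z ∈ cells n w, c ∈ bad z) ∧ n ≤ 4 * (cells n w).card} = ∅ := by
        ext c; simp [h]
      rw [this]; simp
  calc μ {c | ∃ n : ℕ, 1 ≤ n ∧ ∃ w : ℕ → Fin 4, (∀ z ∈ cells n w, c ∈ bad z) ∧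
      n ≤ 4 * (cells n w).card}
      ≤ μ (⋃ m : ℕ, ⋃ w : Fin (m + 1) → Fin 4,
        {c | (∀ z ∈ cells (m + 1) (ex (m + 1) w), c ∈ bad z) ∧
          m + 1 ≤ 4 * (cells (m + 1) (ex (m + 1) w)).card}) := measure_mono hsub
    _ ≤ ∑' m : ℕ, μ (⋃ w : Fin (m + 1) → Fin 4,
        {c | (∀ z ∈ cells (m + 1) (ex (m + 1) w), c ∈ bad z) ∧
          m + 1 ≤ 4 * (cells (m + 1) (ex (m + 1) w)).card}) := measure_iUnion_le _
    _ ≤ ∑' m : ℕ, (4 : ℝ≥0∞)⁻¹ ^ (m + 1) := by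
        apply ENNReal.tsum_le_tsum
        intro m
        calc μ (⋃ w : Fin (m + 1) → Fin 4,
              {c | (∀ z ∈ cells (m + 1) (ex (m + 1) w), c ∈ bad z) ∧
                m + 1 ≤ 4 * (cells (m + 1) (ex (m + 1) w)).card})
            ≤ ∑ w : Fin (m + 1) → Fin 4, μ
              {c | (∀ z ∈ cells (m + 1) (ex (m + 1) w), c ∈ bad z) ∧
                m + 1 ≤ 4 * (cells (m + 1) (ex (m + 1) w)).card} := by
              refine (measure_iUnion_le _).trans ?_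
              rw [tsum_fintype]
          _ ≤ ∑ w : Fin (m + 1) → Fin 4, (16 : ℝ≥0∞)⁻¹ ^ (m + 1) :=
              Finset.sum_le_sum (fun w _ => hone _ _)
          _ = (4 : ℝ≥0∞) ^ (m + 1) * (16 : ℝ≥0∞)⁻¹ ^ (m + 1) := by
              rw [Finset.sum_const, Finset.card_univ]
              simp
          _ = (4 : ℝ≥0∞)⁻¹ ^ (m + 1) := by
              rw [← mul_pow]
              congr 1
              have h16 : (16 : ℝ≥0∞) = 4 * 4 := by norm_num
              rw [h16, ENNReal.mul_inv (Or.inr (by norm_num)) (Or.inl (by norm_num)), ← mul_assoc,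
                ENNReal.mul_inv_cancel (by norm_num) (by norm_num), one_mul]
    _ = 3⁻¹ := by
        have h1 : ∑' m : ℕ, (4 : ℝ≥0∞)⁻¹ ^ (m + 1) = (4 : ℝ≥0∞)⁻¹ * ∑' m : ℕ, (4 : ℝ≥0∞)⁻¹ ^ m := by
          rw [← ENNReal.tsum_mul_left]
          congr 1; ext m; rw [pow_succ]; ring
        rw [h1, ENNReal.tsum_geometric]
        have h2 : (1 : ℝ≥0∞) - 4⁻¹ = 3 * 4⁻¹ := by
          rw [ENNReal.sub_eq_of_eq_add (by norm_num)]
          have : (1 : ℝ≥0∞) = 4 * 4⁻¹ := (ENNReal.mul_inv_cancel (by norm_num) (by norm_num)).symm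
          rw [this]; ring
        rw [h2, ENNReal.mul_inv (Or.inl (by norm_num)) (Or.inl (by norm_num)), inv_inv]
        rw [mul_comm (3 : ℝ≥0∞)⁻¹ 4, ← mul_assoc, ENNReal.inv_mul_cancel (by norm_num) (by norm_num),
          one_mul]

end Q291.OP
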