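import Mathlib
import Pool.Agent.Q291.OP.Contour

/-!
# Oriented percolation: cells with infinite past and infinite future
-/

namespace Q291.OP

/-- forward step into a good cell. -/
def fstep (good : ℤ × ℤ → Prop) (a b : ℤ × ℤ) : Prop :=
  (b = a + (1, 0) ∨ b = a + (0, 1)) ∧ good b

/-- backward step into a good cell. -/
def bstep (good : ℤ × ℤ → Prop) (a b : ℤ × ℤ) : Prop :=
  (b = a - (1, 0) ∨ b = a - (0, 1)) ∧ good b

/-- the forward cluster. -/
def fwd (good : ℤ × ℤ → Prop) (z : ℤ × ℤ) : Set (ℤ × ℤ) :=
  {w | Relation.ReflTransGen (fstep good) z w}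

/-- the backward cluster. -/
def bwd (good : ℤ × ℤ → Prop) (z : ℤ × ℤ) : Set (ℤ × ℤ) :=
  {w | Relation.ReflTransGen (bstep good) z w}

/-- good cells with infinite forward and backward clusters. -/
def core (good : ℤ × ℤ → Prop) : Set (ℤ × ℤ) :=
  {z | good z ∧ (fwd good z).Infinite ∧ (bwd good z).Infinite}

lemma core_succ {good : ℤ × ℤ → Prop} {z : ℤ × ℤ} (h : z ∈ core good) :
    z + (1, 0) ∈ core good ∨ z + (0, 1) ∈ core good := by
  obtain ⟨hg, hf, hb⟩ := h
  have key : ∀ y, fstep good z y → (fwd good y).Infinite → y ∈ core good := by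
    intro y hy hfy
    refine ⟨hy.2, hfy, ?_⟩
    apply hb.mono
    intro w hw
    refine Relation.ReflTransGen.head ?_ hw
    refine ⟨?_, hg⟩
    rcases hy.1 with h | h
    · left; rw [h]; simp
    · right; rw [h]; simp
  by_contra hcon
  push Not at hcon
  obtain ⟨h1, h2⟩ := hcon
  apply hf
  have hsub : fwd good z ⊆ {z} ∪ ({w | fstep good z (z + (1, 0)) ∧ w ∈ fwd good (z + (1, 0))} ∪
      {w | fstep good z (z + (0, 1)) ∧ w ∈ fwd good (z + (0, 1))}) := by
    intro w hw
    rcases Relation.ReflTransGen.cases_head hw with h | ⟨y, hy, hyw⟩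
    · left; exact h.symm
    · right
      rcases hy.1 with h | h
      · left; subst h; exact ⟨hy, hyw⟩
      · right; subst h; exact ⟨hy, hyw⟩
  refine Set.Finite.subset ?_ hsub
  refine (Set.finite_singleton z).union (Set.Finite.union ?_ ?_)
  · by_cases hs : fstep good z (z + (1, 0))
    · by_contra hinf
      apply h1
      apply key _ hs
      intro hfin
      exact hinf (hfin.subset (fun w hw => hw.2))
    · have : {w | fstep good z (z + (1, 0)) ∧ w ∈ fwd good (z + (1, 0))} = ∅ := by
        ext w; simp [hs]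
      rw [this]; exact Set.finite_empty
  · by_cases hs : fstep good z (z + (0, 1))
    · by_contra hinf
      apply h2
      apply key _ hs
      intro hfin
      exact hinf (hfin.subset (fun w hw => hw.2))
    · have : {w | fstep good z (z + (0, 1)) ∧ w ∈ fwd good (z + (0, 1))} = ∅ := by
        ext w; simp [hs]
      rw [this]; exact Set.finite_empty

lemma core_pred {good : ℤ × ℤ → Prop} {z : ℤ × ℤ} (h : z ∈ core good) :
    z - (1, 0) ∈ core good ∨ z - (0, 1) ∈ core good := by
  obtain ⟨hg, hf, hb⟩ := h
  have key : ∀ y, bstep good z y → (bwd good y).Infinite → y ∈ core good := by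
    intro y hy hfy
    refine ⟨hy.2, ?_, hfy⟩
    apply hf.mono
    intro w hw
    refine Relation.ReflTransGen.head ?_ hw
    refine ⟨?_, hg⟩
    rcases hy.1 with h | h
    · left; rw [h]; simp
    · right; rw [h]; simp
  by_contra hcon
  push Not at hcon
  obtain ⟨h1, h2⟩ := hcon
  apply hb
  have hsub : bwd good z ⊆ {z} ∪ ({w | bstep good z (z - (1, 0)) ∧ w ∈ bwd good (z - (1, 0))} ∪
      {w | bstep good z (z - (0, 1)) ∧ w ∈ bwd good (z - (0, 1))}) := by
    intro w hw
    rcases Relation.ReflTransGen.cases_head hw with h | ⟨y, hy, hyw⟩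
    · left; exact h.symm
    · right
      rcases hy.1 with h | h
      · left; subst h; exact ⟨hy, hyw⟩
      · right; subst h; exact ⟨hy, hyw⟩
  refine Set.Finite.subset ?_ hsub
  refine (Set.finite_singleton z).union (Set.Finite.union ?_ ?_)
  · by_cases hs : bstep good z (z - (1, 0))
    · by_contra hinf
      apply h1
      apply key _ hs
      intro hfin
      exact hinf (hfin.subset (fun w hw => hw.2))
    · have : {w | bstep good z (z - (1, 0)) ∧ w ∈ bwd good (z - (1, 0))} = ∅ := by
        ext w; simp [hs]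
      rw [this]; exact Set.finite_empty
  · by_cases hs : bstep good z (z - (0, 1))
    · by_contra hinf
      apply h2
      apply key _ hs
      intro hfin
      exact hinf (hfin.subset (fun w hw => hw.2))
    · have : {w | bstep good z (z - (0, 1)) ∧ w ∈ bwd good (z - (0, 1))} = ∅ := by
        ext w; simp [hs]
      rw [this]; exact Set.finite_empty

/-- If the forward cluster of the origin is finite there is a contour of bad cells. -/
lemma fwd_contour {good : ℤ × ℤ → Prop} (h : (fwd good (0, 0)).Finite) :
    ∃ n : ℕ, 1 ≤ n ∧ ∃ w : ℕ → Fin 4, (∀ z ∈ cells n w, ¬ good z) ∧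
      n ≤ 4 * (cells n w).card := by
  refine contour (R := fwd good (0, 0)) (bad := {z | ¬ good z}) h
    Relation.ReflTransGen.refl ?_ ?_ ?_
  · have : ∀ w, w ∈ fwd good (0, 0) → 0 ≤ w.2 := by
      intro w hw
      induction hw with
      | refl => simp
      | tail _ hs ih =>
        rcases hs.1 with h | h <;> rw [h] <;> simp <;> omega
    intro hc
    have := this _ hc
    simp at this
  · intro r hr
    by_cases hg : good (r + (1, 0))
    · left; exact Relation.ReflTransGen.tail hr ⟨Or.inl rfl, hg⟩
    · right; exact hg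
  · intro r hr
    by_cases hg : good (r + (0, 1))
    · left; exact Relation.ReflTransGen.tail hr ⟨Or.inr rfl, hg⟩
    · right; exact hg

/-- If the backward cluster of the origin is finite there is a contour of bad cells, reflected. -/
lemma bwd_contour {good : ℤ × ℤ → Prop} (h : (bwd good (0, 0)).Finite) :
    ∃ n : ℕ, 1 ≤ n ∧ ∃ w : ℕ → Fin 4, (∀ z ∈ cells n w, ¬ good (-z)) ∧
      n ≤ 4 * (cells n w).card := by
  refine contour (R := {z | -z ∈ bwd good (0, 0)}) (bad := {z | ¬ good (-z)}) ?_ ?_ ?_ ?_ ?_
  · exact h.preimage (neg_injective.injOn)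
  · show -((0, 0) : ℤ × ℤ) ∈ bwd good (0, 0)
    have : -((0, 0) : ℤ × ℤ) = (0, 0) := by simp
    rw [this]
    exact Relation.ReflTransGen.refl
  · have : ∀ w, w ∈ bwd good (0, 0) → w.2 ≤ 0 := by
      intro w hw
      induction hw with
      | refl => simp
      | tail _ hs ih =>
        rcases hs.1 with h | h <;> rw [h] <;> simp <;> omega
    intro hc
    have := this _ hc
    simp at this
  · intro r hr
    by_cases hg : good (-(r + (1, 0)))
    · left
      refine Relation.ReflTransGen.tail hr ⟨Or.inl ?_, hg⟩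
      abel
    · right; exact hg
  · intro r hr
    by_cases hg : good (-(r + (0, 1)))
    · left
      refine Relation.ReflTransGen.tail hr ⟨Or.inr ?_, hg⟩
      abel
    · right; exact hg

/-- Either the origin is in the core, or it is bad, or there is a contour of bad cells. -/
theorem core_or {good : ℤ × ℤ → Prop} (h : (0, 0) ∉ core good) :
    ¬ good (0, 0) ∨
    (∃ n : ℕ, 1 ≤ n ∧ ∃ w : ℕ → Fin 4, (∀ z ∈ cells n w, ¬ good z) ∧
      n ≤ 4 * (cells n w).card) ∨
    (∃ n : ℕ, 1 ≤ n ∧ ∃ w : ℕ → Fin 4, (∀ z ∈ cells n w, ¬ good (-z)) ∧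
      n ≤ 4 * (cells n w).card) := by
  by_cases hg : good (0, 0)
  · right
    by_cases hf : (fwd good (0, 0)).Finite
    · left; exact fwd_contour hf
    · by_cases hb : (bwd good (0, 0)).Finite
      · right; exact bwd_contour hb
      · exact absurd ⟨hg, hf, hb⟩ h
  · left; exact hg

end Q291.OP
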