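import Mathlib
import Pool.Agent.Q291.OP.Reach
import Pool.Agent.Q291.OP.Prob

/-!
# The gadget graph

The vertices are `(z, t)` with `z ∈ ℤ × ℤ` and `t ∈ {0, …, 6}`.  Each vertex has two successors
(`succ`), whose height is larger, and two predecessors.
-/

namespace Q291.OP

abbrev V := (ℤ × ℤ) × Fin 7

/-- The two successors of a vertex. -/
def succ (v : V) (k : Fin 2) : V :=
  match v.2, k with
  | 0, 0 => (v.1, 1)
  | 0, 1 => (v.1, 2)
  | 1, 0 => (v.1, 3)
  | 1, 1 => (v.1, 4)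
  | 2, 0 => (v.1, 3)
  | 2, 1 => (v.1, 4)
  | 3, 0 => (v.1, 5)
  | 3, 1 => (v.1, 6)
  | 4, 0 => (v.1, 5)
  | 4, 1 => (v.1, 6)
  | 5, 0 => (v.1 + (1, 0), 0)
  | 5, 1 => (v.1 + (1, 0), 1)
  | 6, 0 => (v.1 + (0, 1), 0)
  | 6, 1 => (v.1 + (0, 1), 2)

/-- The two predecessors of a vertex. -/
def pred (v : V) (k : Fin 2) : V :=
  match v.2, k with
  | 0, 0 => (v.1 - (1, 0), 5)
  | 0, 1 => (v.1 - (0, 1), 6)
  | 1, 0 => (v.1, 0)
  | 1, 1 => (v.1 - (1, 0), 5)
  | 2, 0 => (v.1, 0)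
  | 2, 1 => (v.1 - (0, 1), 6)
  | 3, 0 => (v.1, 1)
  | 3, 1 => (v.1, 2)
  | 4, 0 => (v.1, 1)
  | 4, 1 => (v.1, 2)
  | 5, 0 => (v.1, 3)
  | 5, 1 => (v.1, 4)
  | 6, 0 => (v.1, 3)
  | 6, 1 => (v.1, 4)

/-- The height, which is increased by `succ`. -/
def height (v : V) : ℤ := 7 * (v.1.1 + v.1.2) + (v.2 : ℕ)

/-- The gadget graph: every vertex is joined to its two successors. -/
def gadget : SimpleGraph V where
  Adj a b := (∃ k, b = succ a k) ∨ (∃ k, a = succ b k)
  symm := ⟨fun _ _ h => h.symm⟩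
  loopless := ⟨fun a h => by
    have key : ∀ k, a ≠ succ a k := by
      obtain ⟨⟨x, y⟩, t⟩ := a
      intro k
      fin_cases t <;> fin_cases k <;> simp [succ, Prod.ext_iff]
    rcases h with ⟨k, hk⟩ | ⟨k, hk⟩
    · exact key k hk
    · exact key k hk⟩

lemma height_succ (v : V) (k : Fin 2) : height v < height (succ v k) := by
  obtain ⟨⟨x, y⟩, t⟩ := v
  fin_cases t <;> fin_cases k <;> simp [succ, height] <;> omega

lemma eq_succ_iff (a b : V) : (∃ k, a = succ b k) ↔ (b = pred a 0 ∨ b = pred a 1) := by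
  obtain ⟨⟨x, y⟩, t⟩ := a
  obtain ⟨⟨x', y'⟩, t'⟩ := b
  fin_cases t <;> fin_cases t' <;>
    simp [succ, pred, Prod.ext_iff, Fin.exists_fin_two] <;> omega

lemma adj_iff (a b : V) :
    gadget.Adj a b ↔ b = succ a 0 ∨ b = succ a 1 ∨ b = pred a 0 ∨ b = pred a 1 := by
  change ((∃ k, b = succ a k) ∨ (∃ k, a = succ b k)) ↔ _
  rw [eq_succ_iff a b, Fin.exists_fin_two (p := fun k => b = succ a k)]
  tauto

lemma neighborSet_eq (a : V) :
    gadget.neighborSet a = {succ a 0, succ a 1, pred a 0, pred a 1} := by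
  ext b
  rw [SimpleGraph.mem_neighborSet, adj_iff]
  simp

lemma four_regular (a : V) : (gadget.neighborSet a).encard = 4 := by
  rw [neighborSet_eq]
  have h : succ a 0 ≠ succ a 1 ∧ succ a 0 ≠ pred a 0 ∧ succ a 0 ≠ pred a 1 ∧
      succ a 1 ≠ pred a 0 ∧ succ a 1 ≠ pred a 1 ∧ pred a 0 ≠ pred a 1 := by
    obtain ⟨⟨x, y⟩, t⟩ := a
    fin_cases t <;> simp [succ, pred, Prod.ext_iff]
  obtain ⟨h1, h2, h3, h4, h5, h6⟩ := h
  rw [Set.encard_insert_of_notMem (by simp [h1, h2, h3]),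
    Set.encard_insert_of_notMem (by simp [h4, h5]), Set.encard_insert_of_notMem (by simp [h6]),
    Set.encard_singleton]
  norm_num

/-- No finite nonempty set has only vertices with at most one neighbour outside. -/
lemma no_fortress (S : Set V) (hfin : S.Finite) (hne : S.Nonempty) :
    ∃ v ∈ S, 2 ≤ {w | gadget.Adj v w ∧ w ∉ S}.encard := by
  obtain ⟨v, hv, hmax⟩ := hfin.exists_maximalFor height S hne
  refine ⟨v, hv, ?_⟩
  have h1 : ∀ k, succ v k ∉ S := by
    intro k hk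
    have := hmax hk (height_succ v k).le
    have := height_succ v k
    omega
  have hne : succ v 0 ≠ succ v 1 := by
    obtain ⟨⟨x, y⟩, t⟩ := v
    fin_cases t <;> simp [succ, Prod.ext_iff]
  have hsub : ({succ v 0, succ v 1} : Set V) ⊆ {w | gadget.Adj v w ∧ w ∉ S} := by
    intro w hw
    rcases hw with rfl | hw
    · exact ⟨(adj_iff _ _).2 (Or.inl rfl), h1 0⟩
    · rw [Set.mem_singleton_iff] at hw
      subst hw
      exact ⟨(adj_iff _ _).2 (Or.inr (Or.inl rfl)), h1 1⟩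
  calc (2 : ℕ∞) = ({succ v 0, succ v 1} : Set V).encard := (Set.encard_pair hne).symm
    _ ≤ _ := Set.encard_le_encard hsub

/-! ### Distances -/

lemma adj_succ (a : V) (k : Fin 2) : gadget.Adj a (succ a k) := Or.inl ⟨k, rfl⟩

lemma walk_base (z : ℤ × ℤ) (t : Fin 7) :
    ∃ w : gadget.Walk (z, t) (z, 0), w.length ≤ 3 := by
  have a01 : gadget.Adj (z, 1) (z, 0) := (adj_succ (z, 0) 0).symm
  have a02 : gadget.Adj (z, 2) (z, 0) := (adj_succ (z, 0) 1).symm
  have a13 : gadget.Adj (z, 3) (z, 1) := (adj_succ (z, 1) 0).symm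
  have a14 : gadget.Adj (z, 4) (z, 1) := (adj_succ (z, 1) 1).symm
  have a35 : gadget.Adj (z, 5) (z, 3) := (adj_succ (z, 3) 0).symm
  have a36 : gadget.Adj (z, 6) (z, 3) := (adj_succ (z, 3) 1).symm
  fin_cases t
  · exact ⟨SimpleGraph.Walk.nil, by simp⟩
  · exact ⟨SimpleGraph.Walk.cons a01 SimpleGraph.Walk.nil, by simp⟩
  · exact ⟨SimpleGraph.Walk.cons a02 SimpleGraph.Walk.nil, by simp⟩
  · exact ⟨SimpleGraph.Walk.cons a13 (SimpleGraph.Walk.cons a01 SimpleGraph.Walk.nil), by simp⟩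
  · exact ⟨SimpleGraph.Walk.cons a14 (SimpleGraph.Walk.cons a01 SimpleGraph.Walk.nil), by simp⟩
  · exact ⟨SimpleGraph.Walk.cons a35 (SimpleGraph.Walk.cons a13
      (SimpleGraph.Walk.cons a01 SimpleGraph.Walk.nil)), by simp⟩
  · exact ⟨SimpleGraph.Walk.cons a36 (SimpleGraph.Walk.cons a13
      (SimpleGraph.Walk.cons a01 SimpleGraph.Walk.nil)), by simp⟩

lemma walk_e1 (z : ℤ × ℤ) :
    ∃ w : gadget.Walk (z, 0) (z + (1, 0), 0), w.length = 4 := by
  have a01 : gadget.Adj (z, 0) (z, 1) := adj_succ (z, 0) 0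
  have a13 : gadget.Adj (z, 1) (z, 3) := adj_succ (z, 1) 0
  have a35 : gadget.Adj (z, 3) (z, 5) := adj_succ (z, 3) 0
  have a50 : gadget.Adj (z, 5) (z + (1, 0), 0) := adj_succ (z, 5) 0
  exact ⟨SimpleGraph.Walk.cons a01 (SimpleGraph.Walk.cons a13 (SimpleGraph.Walk.cons a35
    (SimpleGraph.Walk.cons a50 SimpleGraph.Walk.nil))), by simp⟩

lemma walk_e2 (z : ℤ × ℤ) :
    ∃ w : gadget.Walk (z, 0) (z + (0, 1), 0), w.length = 4 := by
  have a01 : gadget.Adj (z, 0) (z, 1) := adj_succ (z, 0) 0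
  have a13 : gadget.Adj (z, 1) (z, 3) := adj_succ (z, 1) 0
  have a36 : gadget.Adj (z, 3) (z, 6) := adj_succ (z, 3) 1
  have a60 : gadget.Adj (z, 6) (z + (0, 1), 0) := adj_succ (z, 6) 0
  exact ⟨SimpleGraph.Walk.cons a01 (SimpleGraph.Walk.cons a13 (SimpleGraph.Walk.cons a36
    (SimpleGraph.Walk.cons a60 SimpleGraph.Walk.nil))), by simp⟩

/-- The square lattice: two points are adjacent when their `ℓ¹` distance is `1`. -/
def lattice : SimpleGraph (ℤ × ℤ) where
  Adj a b := |a.1 - b.1| + |a.2 - b.2| = 1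
  symm := ⟨fun a b h => by rw [abs_sub_comm b.1, abs_sub_comm b.2]; exact h⟩
  loopless := ⟨fun a h => by simp at h⟩

lemma lattice_adj (a b : ℤ × ℤ) : lattice.Adj a b ↔
    (b = a + (1, 0) ∨ a = b + (1, 0)) ∨ (b = a + (0, 1) ∨ a = b + (0, 1)) := by
  obtain ⟨x, y⟩ := a
  obtain ⟨x', y'⟩ := b
  change |x - x'| + |y - y'| = 1 ↔ _
  simp only [Prod.mk_add_mk, Prod.mk.injEq]
  rcases abs_cases (x - x') with ⟨h1, h1'⟩ | ⟨h1, h1'⟩ <;>
    rcases abs_cases (y - y') with ⟨h2, h2'⟩ | ⟨h2, h2'⟩ <;> rw [h1, h2] <;> omega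

lemma walk_lattice {a b : ℤ × ℤ} (w : lattice.Walk a b) :
    ∃ w' : gadget.Walk (a, 0) (b, 0), w'.length = 4 * w.length := by
  induction w with
  | nil => exact ⟨SimpleGraph.Walk.nil, by simp⟩
  | cons h w ih =>
    obtain ⟨w', hw'⟩ := ih
    rw [lattice_adj] at h
    rcases h with (h | h) | (h | h)
    · subst h
      obtain ⟨u, hu⟩ := walk_e1 _
      exact ⟨u.append w', by simp [hu, hw']; ring⟩
    · subst h
      obtain ⟨u, hu⟩ := walk_e1 _
      exact ⟨u.reverse.append w', by simp [hu, hw']; ring⟩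
    · subst h
      obtain ⟨u, hu⟩ := walk_e2 _
      exact ⟨u.append w', by simp [hu, hw']; ring⟩
    · subst h
      obtain ⟨u, hu⟩ := walk_e2 _
      exact ⟨u.reverse.append w', by simp [hu, hw']; ring⟩

lemma lattice_connected : lattice.Connected := by
  have hx : ∀ (y : ℤ) (n : ℕ), lattice.Reachable (0, y) ((n : ℤ), y) ∧
      lattice.Reachable (0, y) (-(n : ℤ), y) := by
    intro y n
    induction n with
    | zero => simp
    | succ n ih =>
      refine ⟨ih.1.trans (SimpleGraph.Adj.reachable ?_), ih.2.trans (SimpleGraph.Adj.reachable ?_)⟩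
      · rw [lattice_adj]; left; left; simp
      · rw [lattice_adj]; left; right; simp
  have hy : ∀ n : ℕ, lattice.Reachable (0, 0) (0, (n : ℤ)) ∧
      lattice.Reachable (0, 0) (0, -(n : ℤ)) := by
    intro n
    induction n with
    | zero => simp
    | succ n ih =>
      refine ⟨ih.1.trans (SimpleGraph.Adj.reachable ?_), ih.2.trans (SimpleGraph.Adj.reachable ?_)⟩
      · rw [lattice_adj]; right; left; simp
      · rw [lattice_adj]; right; right; simp
  have h : ∀ a : ℤ × ℤ, lattice.Reachable (0, 0) a := by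
    rintro ⟨x, y⟩
    have h1 : lattice.Reachable (0, 0) (0, y) := by
      obtain ⟨n, rfl | rfl⟩ := y.eq_nat_or_neg
      · exact (hy n).1
      · exact (hy n).2
    have h2 : lattice.Reachable (0, y) (x, y) := by
      obtain ⟨n, rfl | rfl⟩ := x.eq_nat_or_neg
      · exact (hx y n).1
      · exact (hx y n).2
    exact h1.trans h2
  exact ⟨fun a b => (h a).symm.trans (h b)⟩

lemma gadget_connected : gadget.Connected := by
  refine ⟨fun a b => ?_⟩
  obtain ⟨wa, _⟩ := walk_base a.1 a.2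
  obtain ⟨wb, _⟩ := walk_base b.1 b.2
  obtain ⟨w, _⟩ := lattice_connected.exists_walk_length_eq_dist a.1 b.1
  obtain ⟨w', _⟩ := walk_lattice w
  exact ⟨(wa.append w').append wb.reverse⟩

lemma dist_lower (a b : V) : lattice.dist a.1 b.1 ≤ gadget.dist a b := by
  have step : ∀ a b : V, gadget.Adj a b → lattice.dist a.1 b.1 ≤ 1 := by
    have key : ∀ (a : V) (k : Fin 2), lattice.dist a.1 (succ a k).1 ≤ 1 := by
      intro a k
      have h : (succ a k).1 = a.1 ∨ (succ a k).1 = a.1 + (1, 0) ∨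
          (succ a k).1 = a.1 + (0, 1) := by
        obtain ⟨z, t⟩ := a
        fin_cases t <;> fin_cases k <;> simp [succ]
      rcases h with h | h | h
      · rw [h]; simp
      · rw [h, SimpleGraph.dist_eq_one_iff_adj.2 ((lattice_adj _ _).2 (Or.inl (Or.inl rfl)))]
      · rw [h, SimpleGraph.dist_eq_one_iff_adj.2 ((lattice_adj _ _).2 (Or.inr (Or.inl rfl)))]
    intro a b h
    rcases h with ⟨k, rfl⟩ | ⟨k, rfl⟩
    · exact key a k
    · rw [SimpleGraph.dist_comm]; exact key b k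
  obtain ⟨w, hw⟩ := gadget_connected.exists_walk_length_eq_dist a b
  rw [← hw]
  clear hw
  induction w with
  | nil => simp
  | cons h w ih =>
    rename_i u v w'
    refine (lattice_connected.dist_triangle (v := v.1)).trans ?_
    rw [SimpleGraph.Walk.length_cons, add_comm]
    exact add_le_add ih (step _ _ h)

lemma dist_upper (a b : V) : gadget.dist a b ≤ 4 * lattice.dist a.1 b.1 + 6 := by
  obtain ⟨wa, ha⟩ := walk_base a.1 a.2
  obtain ⟨wb, hb⟩ := walk_base b.1 b.2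
  obtain ⟨w, hw⟩ := lattice_connected.exists_walk_length_eq_dist a.1 b.1
  obtain ⟨w', hw'⟩ := walk_lattice w
  have h : gadget.dist a b ≤ ((wa.append w').append wb.reverse).length :=
    SimpleGraph.dist_le ((wa.append w').append wb.reverse)
  simp only [SimpleGraph.Walk.length_append, SimpleGraph.Walk.length_reverse] at h
  omega

end Q291.OP
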